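import Pool.Agent.H986R3.MSSem

set_option autoImplicit false

/-!
Monomial space versus degree in polynomial calculus: the negated form of the question. The
definitions are in `Pool/Agent/H986R3/MSDefs.lean`.

The counterexample has the axioms `Σ x_i - (n+1) y` and `1 - y` over the rational numbers. Each of
them is satisfiable and has degree `1`. The configurations `∅, {y}, {1}` form a semantic
refutation of monomial space `1`, but each polynomial calculus refutation has degree more than
`n / 2`.
-/

namespace Pool.Agent.Results.MP_a6f615_lc.SpaceVersusDegree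

open MvPolynomial Pool.Agent.H986R3.MS

/-- For every `c > 0` there are a field, an unsatisfiable set `P` of polynomials (each of which is
satisfiable) and a semantic refutation of `P` whose monomial space is less than `c (D - d)`, where
`D` is the least degree of a polynomial calculus refutation of `P` and `d` the largest degree of a
polynomial in `P`. -/
theorem result (c : ℝ) (hc : 0 < c) : ∃ (V F : Type) (_ : Fintype V) (_ : Field F)
    (P : Set (MvPolynomial V F)) (l : ℕ) (M : ℕ → Finset (MvPolynomial V F)) (D d : ℕ),
    Unsatisfiable P ∧ (∀ p ∈ P, ¬ Unsatisfiable {p}) ∧ IsSemanticRefutation P l M ∧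
    IsLeast {k | RefutableInDegree P k} D ∧ IsGreatest (totalDegree '' P) d ∧
    (space l M : ℝ) < c * ((D : ℝ) - d) := by
  classical
  obtain ⟨k, hk⟩ := exists_nat_gt (1 / c)
  have hne := refutable (n := 2 * k + 1)
  refine ⟨Var (2 * k + 1), ℚ, inferInstance, inferInstance, _, 2, conf (2 * k + 1),
    Nat.find hne, 1, unsat, ?_, conf_refutes,
    ⟨Nat.find_spec hne, fun m hm => Nat.find_min' hne hm⟩, greatest, ?_⟩
  · rintro p (hp | hp)
    · rw [hp]; exact sat1
    · rw [Set.mem_singleton_iff] at hp
      rw [hp]; exact sat2
  · have h1 : k + 1 < Nat.find hne := by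
      by_contra h
      push Not at h
      obtain ⟨L, hL, hdeg⟩ := Nat.find_spec hne
      exact lower (n := 2 * k + 1) (k := k) (by omega)
        ⟨L, hL, fun f hf => (hdeg f hf).trans h⟩
    have h2 : ((k + 1 : ℕ) : ℝ) < (Nat.find hne : ℝ) := by exact_mod_cast h1
    rw [conf_space]
    push_cast at h2 ⊢
    rw [div_lt_iff₀ hc] at hk
    nlinarith

end Pool.Agent.Results.MP_a6f615_lc.SpaceVersusDegree
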